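import Pool.Agent.Helper18.PB.Defs

/-!
# Packet A5 (MP_b9cb57_an): the inequality between a stage and the limit
-/

set_option autoImplicit false

namespace Pool.Agent.Helper29.PB

open Pool.Agent.Helper18.PB

universe u

theorem a5 : GLim.{u} := by
  intro X _ _ m f F r g G T x z e θ E hm hx hz hθ hE he h1 hF hT hr hG h2 y hy hU
  have hm' : (1 : ℝ) ≤ m := by exact_mod_cast hm
  -- the basic inequality
  have key : ∀ w : X, ‖w‖ ≤ 1 →
      F (w - x) ≤ 3 * m * (θ * E) - 2 * θ / 3 * ∑ k, |g k (w - x)| := by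
    intro w hw
    have hwx : ‖w - x‖ ≤ 2 := by
      calc ‖w - x‖ ≤ ‖w‖ + ‖x‖ := norm_sub_le _ _
        _ ≤ 2 := by linarith
    have e1 : F (w - x) = f (w - x) + ∑ k, T k * g k (w - x) - r (w - x) := by
      rw [hF]
      simp only [sub_apply, add_apply,
        sum_apply, smul_apply, smul_eq_mul]
    have e2 : ∑ k, T k * g k (w - x) ≤ θ / 3 * ∑ k, |g k (w - x)| := by
      rw [Finset.mul_sum]
      apply Finset.sum_le_sum
      intro k _
      calc T k * g k (w - x) ≤ T k * |g k (w - x)| :=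
            mul_le_mul_of_nonneg_left (le_abs_self _) (hT k).1
        _ ≤ θ / 3 * |g k (w - x)| := mul_le_mul_of_nonneg_right (hT k).2 (abs_nonneg _)
    have e3 : -(r (w - x)) ≤ 2 * (m * (θ * E)) := by
      have a1 : |r (w - x)| ≤ ‖r‖ * ‖w - x‖ := r.le_opNorm _
      have a2 : ‖r‖ * ‖w - x‖ ≤ (m * (θ * E)) * 2 :=
        mul_le_mul hr hwx (norm_nonneg _) (by positivity)
      have a3 := neg_abs_le (r (w - x))
      linarith
    have e4 := h1 w hw
    have e5 : θ * E ≤ m * (θ * E) := le_mul_of_one_le_left (by positivity) hm'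
    rw [e1]
    linarith
  have hxz : F (x - z) ≤ 0 := h2 x hx
  have hzx : F (z - x) = -F (x - z) := by
    rw [← map_neg, neg_sub]
  have hkz := key z hz
  have hky := key y hy
  have hsplit : F (y - z) = F (y - x) + F (x - z) := by
    rw [← map_add]; congr 1; abel
  have hyz : ‖y - z‖ ≤ 2 := by
    calc ‖y - z‖ ≤ ‖y‖ + ‖z‖ := norm_sub_le _ _
      _ ≤ 2 := by linarith
  have hS : ∑ k, |G k (y - z)| ≤ ∑ k, |g k (y - x)| + ∑ k, |g k (z - x)| + 2 * (m * E) := by
    have : ∀ k, |G k (y - z)| ≤ |g k (y - x)| + |g k (z - x)| + 2 * E := by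
      intro k
      have a1 : G k (y - z) = g k (y - x) - g k (z - x) + (G k - g k) (y - z) := by
        simp only [sub_apply, map_sub]; ring
      have a2 : |(G k - g k) (y - z)| ≤ 2 * E := by
        have b1 : |(G k - g k) (y - z)| ≤ ‖G k - g k‖ * ‖y - z‖ := (G k - g k).le_opNorm _
        have b2 : ‖G k - g k‖ * ‖y - z‖ ≤ E * 2 :=
          mul_le_mul (hG k) hyz (norm_nonneg _) hE
        linarith
      rw [a1]
      calc |g k (y - x) - g k (z - x) + (G k - g k) (y - z)|
          ≤ |g k (y - x) - g k (z - x)| + |(G k - g k) (y - z)| := abs_add_le _ _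
        _ ≤ |g k (y - x)| + |g k (z - x)| + 2 * E := by
            have := abs_sub (g k (y - x)) (g k (z - x))
            linarith
    calc ∑ k, |G k (y - z)| ≤ ∑ k, (|g k (y - x)| + |g k (z - x)| + 2 * E) :=
          Finset.sum_le_sum fun k _ => this k
      _ = _ := by
          rw [Finset.sum_add_distrib, Finset.sum_add_distrib, Finset.sum_const, Finset.card_univ,
            Fintype.card_fin, nsmul_eq_mul]
          ring
  -- bounds
  have hSz : θ * ∑ k, |g k (z - x)| ≤ 9 / 2 * (m * (θ * E)) := by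
    rw [hzx] at hkz
    nlinarith
  have hSU : θ * ∑ k, |G k (y - z)| ≤
      θ * ∑ k, |g k (y - x)| + θ * ∑ k, |g k (z - x)| + 2 * (m * (θ * E)) := by
    have := mul_le_mul_of_nonneg_left hS hθ.le
    nlinarith
  have hUU : 22 * (m * (θ * E)) ≤ θ * ∑ k, |G k (y - z)| := by
    have := mul_le_mul_of_nonneg_left hU hθ.le
    nlinarith
  rw [hsplit]
  nlinarith

end Pool.Agent.Helper29.PB
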